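import Pool.Agent.R634.CH.Fin
import Pool.Agent.W668.Shai.Key2

/-!
# MP_4297ae_an: under the Continuum Hypothesis, `C(βℕ ∖ ℕ)` has the SHAI property

Hence the negated form of Q1 is not a theorem of ZFC: if ZFC is consistent, so is ZFC together with a
positive answer to Q1.
-/

set_option autoImplicit false

open Set
open scoped Cardinal

namespace Pool.Agent.Results.MP_4297ae_an.UnderCH

open Pool.Agent.R634.CH

universe u v w

/-- The SHAI property of a normed space `X`: for every nonzero Banach space `Y`, every surjective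
algebra homomorphism `ψ : B(X) → B(Y)` (a linear multiplicative map; it is not assumed that `ψ` is
continuous or unital) is injective. -/
def SHAI (𝕜 : Type w) [RCLike 𝕜] (X : Type u) [NormedAddCommGroup X] [NormedSpace 𝕜 X] : Prop :=
  ∀ (Y : Type v) [NormedAddCommGroup Y] [NormedSpace 𝕜 Y] [CompleteSpace Y] [Nontrivial Y]
    (ψ : (X →L[𝕜] X) →ₙₐ[𝕜] (Y →L[𝕜] Y)), Function.Surjective ψ → Function.Injective ψ

/-- **Main theorem.**  Assume the Continuum Hypothesis.  Then the Banach space `C(βℕ ∖ ℕ)` of
continuous real or complex functions on the Čech–Stone remainder of `ℕ` (`Rem` is the subspace of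
nonprincipal ultrafilters of the compact space of all ultrafilters on `ℕ`) has the SHAI
property. -/
theorem result (hCH : (𝔠 : Cardinal.{0}) = Cardinal.aleph 1) (𝕜 : Type w) [RCLike 𝕜] :
    SHAI.{w, v} 𝕜 C(Rem, 𝕜) := by
  intro Y _ _ _ _ ψ hψ
  have h : Function.Injective (Pool.Agent.W668.Shai.toAlg ψ hψ) :=
    shai_rem hCH (Pool.Agent.W668.Shai.toAlg ψ hψ) hψ
  exact h

end Pool.Agent.Results.MP_4297ae_an.UnderCH
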